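import Pool.Agent.H13R2.Smp.Main
import Pool.Agent.H741R2.SST.BridgeThm

/-!
# An efficient exactly uniform sampler for the spanning trees of simplicial complexes
-/

namespace Pool.Agent.Results.MP_d8fb5e_lc.ExactSampler

open Pool.Agent.H13R2.RM Pool.Agent.H13R2.Smp Pool.Agent.NPC

/-- There are one randomised algorithm `M` (a Turing machine with fair coins) and one polynomial
`p` such that for every finite simplicial complex `Δ` of dimension at least one, given as the list
of its faces, the machine outputs every spanning tree of `Δ` with probability exactly one over the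
number of spanning trees, and its expected running time is at most `p` of the number of faces. -/
theorem result : ∃ (M : CoinTM) (p : Polynomial ℕ), (∀ x, Measurable (M.time x)) ∧
    ∀ Δ : List (List ℕ), IsComplex Δ → 2 ≤ topSize Δ →
      {Υ | SpanningTree Δ Υ}.Finite ∧ {Υ | SpanningTree Δ Υ}.Nonempty ∧
      (∀ Υ, SpanningTree Δ Υ →
        M.prob (bits Δ) (bits Υ) = 1 / ({Υ | SpanningTree Δ Υ}.ncard : ENNReal)) ∧
      M.expectedTime (bits Δ) ≤ (p.eval Δ.length : ℕ) := by
  obtain ⟨M, p, h⟩ := sampler fun L hL h2 => Pool.Agent.H741R2.SST.bridge hL h2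
  exact ⟨M, p, M.measurable_time, h⟩

end Pool.Agent.Results.MP_d8fb5e_lc.ExactSampler
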